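import Pool.Agent.Q189.SimplexVol

/-!
# MP_6df474_gt: the Heron type lower bound for `V₂` fails
-/

set_option autoImplicit false

open MeasureTheory Set Filter Topology
open scoped ENNReal

namespace Pool.Agent.Results.MP_6df474_gt.SimplexViolates

/-- Euclidean space. -/
abbrev E (n : ℕ) : Type := EuclideanSpace ℝ (Fin n)

/-- The surface area of a convex body `K` in `ℝ³`, as the Minkowski content
`lim_{t → 0+} (vol (K + t B) - vol K) / t` (for convex bodies the limit exists, by Steiner's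
formula, so it equals the upper limit). -/
noncomputable def surfaceArea (K : Set (E 3)) : ℝ≥0∞ :=
  limsup (fun t : ℝ => (volume (Metric.cthickening t K) - volume K) / ENNReal.ofReal t) (𝓝[>] 0)

/-- The intrinsic volume `V₂(K)` of a convex body `K` in `ℝ³`: half of the surface area. -/
noncomputable def V2 (K : Set (E 3)) : ℝ := (1 / 2) * (surfaceArea K).toReal

/-- The intrinsic volume `V₁(L)` of a compact convex set `L` in the plane: half of the perimeter,
where by Cauchy's formula the perimeter is the integral of the support function of `L` over the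
unit circle. -/
noncomputable def V1 (L : Set (E 2)) : ℝ :=
  (1 / 2) * ∫ θ in (0 : ℝ)..(2 * Real.pi),
    sSup ((fun y : E 2 => inner ℝ y !₂[Real.cos θ, Real.sin θ]) '' L)

/-- The section `K ∩ eᵢ^⊥`, where the coordinate plane `eᵢ^⊥` is identified with `ℝ²` by dropping
the `i`-th coordinate. -/
def coordSection (K : Set (E 3)) (i : Fin 3) : Set (E 2) :=
  {p | (WithLp.toLp 2 (i.insertNth (0 : ℝ) p.ofLp : Fin 3 → ℝ) : E 3) ∈ K}

/-- `ℓᵢ(K) = V₁(K ∩ eᵢ^⊥)`. -/
noncomputable def ell (K : Set (E 3)) (i : Fin 3) : ℝ := V1 (coordSection K i)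

/-- a corner simplex -/
def corner (n : ℕ) (a b : ℝ) : Set (E n) := {x | (∀ i, -a ≤ x i) ∧ ∑ i, x i ≤ b}

theorem volume_corner (a b : ℝ) (h : 0 ≤ b + 3 * a) :
    volume (corner 3 a b) = ENNReal.ofReal ((b + 3 * a) ^ 3 / 6) := by
  have h1 : corner 3 a b = (fun x : E 3 => x.ofLp) ⁻¹'
      ((fun y : Fin 3 → ℝ => y + fun _ => a) ⁻¹' (Q189.SimplexVol.S 3 (b + 3 * a))) := by
    ext x
    simp only [corner, Q189.SimplexVol.S, mem_setOf_eq, mem_preimage, Pi.add_apply,
      Finset.sum_add_distrib, Finset.sum_const, Finset.card_univ, Fintype.card_fin, nsmul_eq_mul]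
    constructor
    · rintro ⟨h1, h2⟩
      exact ⟨fun i => by linarith [h1 i], by push_cast; linarith⟩
    · rintro ⟨h1, h2⟩
      exact ⟨fun i => by linarith [h1 i], by push_cast at h2; linarith⟩
  have hcl := (Q189.SimplexVol.S_closed 3 (b + 3 * a))
  rw [h1, (PiLp.volume_preserving_ofLp (Fin 3)).measure_preimage
    (hcl.preimage (by fun_prop)).measurableSet.nullMeasurableSet,
    measure_preimage_add_right, Q189.SimplexVol.volume_S 3 _ h]
  rfl

theorem corner_closed (n : ℕ) (a b : ℝ) : IsClosed (corner n a b) := by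
  have : corner n a b = (⋂ i, {x : E n | -a ≤ x i}) ∩ {x | ∑ i, x i ≤ b} := by
    ext y; simp [corner]
  rw [this]
  exact (isClosed_iInter fun i => isClosed_le continuous_const (by fun_prop)).inter
    (isClosed_le (by fun_prop) continuous_const)

theorem corner_convex (n : ℕ) (a b : ℝ) : Convex ℝ (corner n a b) := by
  rintro x ⟨hx1, hx2⟩ y ⟨hy1, hy2⟩ s t hs ht hst
  constructor
  · intro i
    have h1 := mul_le_mul_of_nonneg_left (hx1 i) hs
    have h2 := mul_le_mul_of_nonneg_left (hy1 i) ht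
    have h3 : -a = s * -a + t * -a := by rw [← add_mul, hst, one_mul]
    simp only [PiLp.add_apply, PiLp.smul_apply, smul_eq_mul]
    linarith
  · have h1 := mul_le_mul_of_nonneg_left hx2 hs
    have h2 := mul_le_mul_of_nonneg_left hy2 ht
    have h3 : b = s * b + t * b := by rw [← add_mul, hst, one_mul]
    simp only [PiLp.add_apply, PiLp.smul_apply, smul_eq_mul, Finset.sum_add_distrib,
      ← Finset.mul_sum]
    linarith

theorem corner_compact : IsCompact (corner 3 1 98) := by
  have h1 : corner 3 1 98 ⊆ (WithLp.toLp 2 : (Fin 3 → ℝ) → E 3) ''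
      (Icc (fun _ => -1) (fun _ => 100)) := by
    rintro x ⟨hx1, hx2⟩
    refine ⟨x.ofLp, ⟨fun i => hx1 i, fun i => ?_⟩, rfl⟩
    rw [Fin.sum_univ_three] at hx2
    have h0 := hx1 0
    have h1 := hx1 1
    have h2 := hx1 2
    fin_cases i <;> simp <;> linarith
  exact (isCompact_Icc.image (PiLp.continuous_toLp 2 _)).of_isClosed_subset
    (corner_closed 3 1 98) h1

theorem zero_mem_interior : (0 : E 3) ∈ interior (corner 3 1 98) := by
  have hop : IsOpen {x : E 3 | (∀ i, -1 < x i) ∧ ∑ i, x i < 98} := by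
    have : {x : E 3 | (∀ i, -1 < x i) ∧ ∑ i, x i < 98} =
        (⋂ i, {x : E 3 | -1 < x i}) ∩ {x | ∑ i, x i < 98} := by
      ext y; simp
    rw [this]
    exact (isOpen_iInter_of_finite fun i => isOpen_lt continuous_const (by fun_prop)).inter
      (isOpen_lt (by fun_prop) continuous_const)
  refine mem_interior.2 ⟨_, ?_, hop, ?_⟩
  · rintro x ⟨h1, h2⟩
    exact ⟨fun i => (h1 i).le, h2.le⟩
  · simp

theorem thick_subset {t : ℝ} (ht : 0 ≤ t) :
    Metric.cthickening t (corner 3 1 98) ⊆ corner 3 (1 + t) (98 + √3 * t) := by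
  rw [corner_compact.cthickening_eq_biUnion_closedBall ht]
  intro x hx
  simp only [mem_iUnion, Metric.mem_closedBall, exists_prop] at hx
  obtain ⟨y, ⟨hy1, hy2⟩, hxy⟩ := hx
  rw [dist_eq_norm] at hxy
  constructor
  · intro i
    have h1 : ‖(x - y) i‖ ≤ ‖x - y‖ := PiLp.norm_apply_le (x - y) i
    rw [Real.norm_eq_abs, PiLp.sub_apply] at h1
    have h2 := (abs_le.1 (h1.trans hxy)).1
    have := hy1 i
    linarith
  · have h1 : (∑ i, (x - y) i) ^ 2 ≤ 3 * ‖x - y‖ ^ 2 := by
      rw [EuclideanSpace.norm_sq_eq]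
      have := sq_sum_le_card_mul_sum_sq (s := (Finset.univ : Finset (Fin 3)))
        (f := fun i => (x - y) i)
      simpa using this
    have h2 : ∑ i, (x - y) i ≤ √3 * t := by
      have h3 : ‖x - y‖ ^ 2 ≤ t ^ 2 := pow_le_pow_left₀ (norm_nonneg _) hxy 2
      refine le_trans (Real.le_sqrt_of_sq_le (h1.trans (mul_le_mul_of_nonneg_left h3 (by norm_num))))
        (le_of_eq ?_)
      rw [Real.sqrt_mul (by norm_num), Real.sqrt_sq ht]
    have h3 : ∑ i, (x - y) i = ∑ i, x i - ∑ i, y i := by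
      simp [Finset.sum_sub_distrib]
    linarith

theorem surface_le : surfaceArea (corner 3 1 98) ≤ ENNReal.ofReal (101 ^ 2 * (3 + √3) / 2) := by
  set κ : ℝ := 3 + √3 with hκ
  have hκ0 : 0 < κ := by positivity
  set g : ℝ → ℝ := fun t => (3 * 101 ^ 2 * κ + 3 * 101 * κ ^ 2 * t + κ ^ 3 * t ^ 2) / 6 with hg
  have hlim : Tendsto (fun t => ENNReal.ofReal (g t)) (𝓝[>] 0)
      (𝓝 (ENNReal.ofReal (101 ^ 2 * κ / 2))) := by
    have h1 : Tendsto g (𝓝 0) (𝓝 (g 0)) := by
      have : Continuous g := by fun_prop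
      exact this.tendsto 0
    have h2 : g 0 = 101 ^ 2 * κ / 2 := by simp only [hg]; ring
    rw [← h2]
    exact ENNReal.tendsto_ofReal (h1.mono_left nhdsWithin_le_nhds)
  rw [← hlim.limsup_eq]
  refine limsup_le_limsup ?_
  filter_upwards [self_mem_nhdsWithin] with t ht
  have ht0 : 0 < t := ht
  have h1 : volume (Metric.cthickening t (corner 3 1 98)) ≤
      ENNReal.ofReal ((101 + κ * t) ^ 3 / 6) := by
    refine (measure_mono (thick_subset ht0.le)).trans (le_of_eq ?_)
    rw [volume_corner _ _ (by positivity)]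
    congr 3
    rw [hκ]; ring
  have h2 : volume (corner 3 1 98) = ENNReal.ofReal (101 ^ 3 / 6) := by
    rw [volume_corner _ _ (by norm_num)]
    norm_num
  rw [h2]
  calc (volume (Metric.cthickening t (corner 3 1 98)) - ENNReal.ofReal (101 ^ 3 / 6)) /
        ENNReal.ofReal t ≤
      (ENNReal.ofReal ((101 + κ * t) ^ 3 / 6) - ENNReal.ofReal (101 ^ 3 / 6)) /
        ENNReal.ofReal t := by gcongr
    _ = ENNReal.ofReal (((101 + κ * t) ^ 3 / 6 - 101 ^ 3 / 6) / t) := by
        rw [ENNReal.ofReal_div_of_pos ht0, ENNReal.ofReal_sub _ (by norm_num)]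
    _ = ENNReal.ofReal (g t) := by
        congr 1
        simp only [hg]
        field_simp
        ring

theorem section_eq (i : Fin 3) : coordSection (corner 3 1 98) i = corner 2 1 98 := by
  ext p
  simp only [coordSection, corner, mem_setOf_eq]
  rw [Fin.forall_iff_succAbove i, Fin.sum_univ_succAbove _ i]
  simp

theorem support_eq (θ : ℝ) :
    sSup ((fun y : E 2 => inner ℝ y !₂[Real.cos θ, Real.sin θ]) '' corner 2 1 98) =
      -Real.cos θ - Real.sin θ + 100 * max 0 (max (Real.cos θ) (Real.sin θ)) := by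
  set m := max 0 (max (Real.cos θ) (Real.sin θ)) with hm
  have hin : ∀ y : E 2, inner ℝ y !₂[Real.cos θ, Real.sin θ] =
      y 0 * Real.cos θ + y 1 * Real.sin θ := by
    intro y
    simp [PiLp.inner_apply, Fin.sum_univ_two, mul_comm]
  have m0 : 0 ≤ m := le_max_left _ _
  have m1 : Real.cos θ ≤ m := (le_max_left _ _).trans (le_max_right _ _)
  have m2 : Real.sin θ ≤ m := (le_max_right _ _).trans (le_max_right _ _)
  have hup : ∀ y ∈ corner 2 1 98, inner ℝ y !₂[Real.cos θ, Real.sin θ] ≤
      -Real.cos θ - Real.sin θ + 100 * m := by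
    rintro y ⟨h1, h2⟩
    rw [hin]
    have a0 := h1 0
    have a1 := h1 1
    rw [Fin.sum_univ_two] at h2
    have e1 : (y 0 + 1) * Real.cos θ ≤ (y 0 + 1) * m := mul_le_mul_of_nonneg_left m1 (by linarith)
    have e2 : (y 1 + 1) * Real.sin θ ≤ (y 1 + 1) * m := mul_le_mul_of_nonneg_left m2 (by linarith)
    have e3 : (y 0 + 1 + (y 1 + 1)) * m ≤ 100 * m := mul_le_mul_of_nonneg_right (by linarith) m0
    nlinarith
  have hbdd : BddAbove ((fun y : E 2 => inner ℝ y !₂[Real.cos θ, Real.sin θ]) '' corner 2 1 98) :=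
    ⟨_, by rintro _ ⟨y, hy, rfl⟩; exact hup y hy⟩
  have hpt : ∀ a b : ℝ, 0 ≤ a → 0 ≤ b → a + b ≤ 100 →
      (a - 1) * Real.cos θ + (b - 1) * Real.sin θ ≤
        sSup ((fun y : E 2 => inner ℝ y !₂[Real.cos θ, Real.sin θ]) '' corner 2 1 98) := by
    intro a b ha hb hab
    have hmem : (!₂[a - 1, b - 1] : E 2) ∈ corner 2 1 98 := by
      refine ⟨fun i => ?_, ?_⟩
      · fin_cases i <;> simp <;> linarith
      · simp [Fin.sum_univ_two]; linarith
    have := le_csSup hbdd ⟨_, hmem, rfl⟩
    beta_reduce at this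
    rw [hin !₂[a - 1, b - 1]] at this
    refine le_trans (le_of_eq ?_) this
    simp
  apply le_antisymm
  · apply csSup_le
    · exact ⟨_, !₂[0, 0], ⟨fun i => by fin_cases i <;> simp, by simp [Fin.sum_univ_two]⟩, rfl⟩
    · rintro _ ⟨y, hy, rfl⟩
      exact hup y hy
  · have p0 := hpt 0 0 le_rfl le_rfl (by norm_num)
    have p1 := hpt 100 0 (by norm_num) le_rfl (by norm_num)
    have p2 := hpt 0 100 le_rfl (by norm_num) (by norm_num)
    rcases max_choice 0 (max (Real.cos θ) (Real.sin θ)) with h | h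
    · rw [hm, h]; linarith
    · rcases max_choice (Real.cos θ) (Real.sin θ) with h' | h'
      · rw [hm, h, h']; linarith
      · rw [hm, h, h']; linarith

theorem ell_ge (i : Fin 3) : 50 * (2 + √2) ≤ ell (corner 3 1 98) i := by
  unfold ell V1
  rw [section_eq]
  simp only [support_eq]
  set m : ℝ → ℝ := fun θ => max 0 (max (Real.cos θ) (Real.sin θ)) with hm
  have hmc : Continuous m := by fun_prop
  have hi : ∀ a b, IntervalIntegrable m volume a b := fun a b => hmc.intervalIntegrable a b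
  have h1 : ∫ θ in (0 : ℝ)..(2 * Real.pi), (-Real.cos θ - Real.sin θ +
      100 * max 0 (max (Real.cos θ) (Real.sin θ))) = 100 * ∫ θ in (0 : ℝ)..(2 * Real.pi), m θ := by
    rw [intervalIntegral.integral_add, intervalIntegral.integral_sub,
      intervalIntegral.integral_neg, intervalIntegral.integral_const_mul]
    · simp [integral_cos, integral_sin, hm]
    · exact (Real.continuous_cos.neg).intervalIntegrable _ _
    · exact Real.continuous_sin.intervalIntegrable _ _
    · exact (Real.continuous_cos.neg.sub Real.continuous_sin).intervalIntegrable _ _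
    · exact (continuous_const.mul hmc).intervalIntegrable _ _
  rw [h1]
  have hpi := Real.pi_pos
  have g1 : √2 / 2 ≤ ∫ θ in (0 : ℝ)..(Real.pi / 4), m θ := by
    calc √2 / 2 = ∫ θ in (0 : ℝ)..(Real.pi / 4), Real.cos θ := by
          rw [integral_cos, Real.sin_pi_div_four, Real.sin_zero, sub_zero]
      _ ≤ _ := intervalIntegral.integral_mono_on (by linarith)
          (Real.continuous_cos.intervalIntegrable _ _) (hi _ _)
          fun θ _ => (le_max_left _ _).trans (le_max_right _ _)
  have g2 : √2 / 2 + 1 ≤ ∫ θ in (Real.pi / 4)..Real.pi, m θ := by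
    calc √2 / 2 + 1 = ∫ θ in (Real.pi / 4)..Real.pi, Real.sin θ := by
          rw [integral_sin, Real.cos_pi_div_four, Real.cos_pi]; ring
      _ ≤ _ := intervalIntegral.integral_mono_on (by linarith)
          (Real.continuous_sin.intervalIntegrable _ _) (hi _ _)
          fun θ _ => (le_max_right _ _).trans (le_max_right _ _)
  have g3 : 0 ≤ ∫ θ in Real.pi..(3 * Real.pi / 2), m θ :=
    intervalIntegral.integral_nonneg (by linarith) fun θ _ => le_max_left _ _
  have g4 : 1 ≤ ∫ θ in (3 * Real.pi / 2)..(2 * Real.pi), m θ := by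
    calc (1 : ℝ) = ∫ θ in (3 * Real.pi / 2)..(2 * Real.pi), Real.cos θ := by
          rw [integral_cos, Real.sin_two_pi]
          have : Real.sin (3 * Real.pi / 2) = -1 := by
            have : 3 * Real.pi / 2 = Real.pi / 2 + Real.pi := by ring
            rw [this, Real.sin_add_pi, Real.sin_pi_div_two]
          rw [this]; ring
      _ ≤ _ := intervalIntegral.integral_mono_on (by linarith)
          (Real.continuous_cos.intervalIntegrable _ _) (hi _ _)
          fun θ _ => (le_max_left _ _).trans (le_max_right _ _)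
  have hsplit : ∫ θ in (0 : ℝ)..(2 * Real.pi), m θ =
      (∫ θ in (0 : ℝ)..(Real.pi / 4), m θ) + (∫ θ in (Real.pi / 4)..Real.pi, m θ) +
        (∫ θ in Real.pi..(3 * Real.pi / 2), m θ) +
        ∫ θ in (3 * Real.pi / 2)..(2 * Real.pi), m θ := by
    rw [intervalIntegral.integral_add_adjacent_intervals (hi _ _) (hi _ _),
      intervalIntegral.integral_add_adjacent_intervals (hi _ _) (hi _ _),
      intervalIntegral.integral_add_adjacent_intervals (hi _ _) (hi _ _)]
  rw [hsplit]
  linarith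

/-- **Theorem.** There is a convex body `K` in `ℝ³`, with the origin in its interior, for which
`V₂(K)² < (1/16) (ℓ₁² + ℓ₂² + ℓ₃²)² - (1/8) (ℓ₁⁴ + ℓ₂⁴ + ℓ₃⁴)`. -/
theorem result : ∃ K : Set (E 3), IsCompact K ∧ Convex ℝ K ∧ (0 : E 3) ∈ interior K ∧
    surfaceArea K ≠ ⊤ ∧
    V2 K ^ 2 < (1 / 16) * (∑ i, ell K i ^ 2) ^ 2 - (1 / 8) * ∑ i, ell K i ^ 4 := by
  refine ⟨corner 3 1 98, corner_compact, corner_convex 3 1 98, zero_mem_interior,
    (surface_le.trans_lt ENNReal.ofReal_lt_top).ne, ?_⟩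
  have hV : V2 (corner 3 1 98) ≤ 101 ^ 2 * (3 + √3) / 4 := by
    unfold V2
    have h1 : (surfaceArea (corner 3 1 98)).toReal ≤ 101 ^ 2 * (3 + √3) / 2 := by
      refine ENNReal.toReal_le_of_le_ofReal (by positivity) surface_le
    linarith
  have hV0 : 0 ≤ V2 (corner 3 1 98) := by
    unfold V2; positivity
  have heq : ∀ i j, ell (corner 3 1 98) i = ell (corner 3 1 98) j := by
    intro i j
    unfold ell
    rw [section_eq, section_eq]
  set l := ell (corner 3 1 98) 0 with hl
  have hl0 := ell_ge 0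
  rw [← hl] at hl0
  have e1 : ∀ i, ell (corner 3 1 98) i = l := fun i => heq i 0
  simp only [e1, Finset.sum_const, Finset.card_univ, Fintype.card_fin, nsmul_eq_mul]
  have s3 : √3 ≤ 1.7321 := by
    rw [Real.sqrt_le_left (by norm_num)]; norm_num
  have s2 : 1.4142 ≤ √2 := Real.le_sqrt_of_sq_le (by norm_num)
  have hV' : V2 (corner 3 1 98) ≤ 12069 := by
    refine hV.trans ?_
    nlinarith
  have hV2 : V2 (corner 3 1 98) ^ 2 ≤ 12069 ^ 2 := pow_le_pow_left₀ hV0 hV' 2
  have hl1 : 170.7 ≤ l := by linarith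
  have hl4 : (170.7 : ℝ) ^ 4 ≤ l ^ 4 := pow_le_pow_left₀ (by norm_num) hl1 4
  have e2 : (1 / 16) * ((3 : ℕ) * l ^ 2) ^ 2 - (1 / 8) * ((3 : ℕ) * l ^ 4) = (3 / 16) * l ^ 4 := by
    push_cast; ring
  rw [e2]
  norm_num at hV2 hl4 ⊢
  linarith

end Pool.Agent.Results.MP_6df474_gt.SimplexViolates
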